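import Mathlib
import Pool.Agent.W278.Sparse.Main

/-!
Lang's question for varieties `X ⊂ P^n` cut out by `r` forms of arbitrary degrees with few
monomials in two variables.

`supports F lo hi` is the set of all sets `S` of variables, `lo ≤ |S| ≤ hi`, such that some
monomial occurring in one of the forms involves exactly the variables in `S`. Suppose that the
sets of exactly two variables that occur are not almost all pairs (`2 t₂ + N ≤ (1 - p) N²`,
`N = n + 1`, `p > 0`) and that at most a small multiple of `N³` sets of between `3` and `2 r + 2`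
variables occur. Then `X` contains a line defined over a finite extension of `K`; so `X(L)` is
infinite for some finite `L / K` and no complex fibre `X_σ` is hyperbolic. Monomials in more than
`2 r + 2` variables are not restricted. The hypotheses hold, for example, whenever the `r` forms
have together at most `(1 / 2 - ε) n²` monomials and `n` is large in terms of `r` and `ε`
(take `p = ε`).
-/

set_option autoImplicit false

namespace Pool.Agent.Results.MP_f82ddf_nt.FewVariablePairs

open MvPolynomial Pool.Agent.H159R3.Lang Pool.Agent.W278.Sparse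

theorem result (K : Type) [Field K] [NumberField K] (n r : ℕ) (hr : 1 ≤ r)
    (F : Fin r → MvPolynomial (Fin (n + 1)) K) (d : Fin r → ℕ)
    (hF : ∀ i, (F i).IsHomogeneous (d i)) (hd : ∀ i, 0 < d i) (p : ℝ) (hp : 0 ≤ p)
    (h2 : 2 * ((supports F 2 2).card : ℝ) + (n + 1) ≤ (1 - p) * (n + 1) ^ 2)
    (h3 : ((r : ℝ) + 1) ^ 2 * (n + 1) ^ 2 +
        8 * ((r : ℝ) + 1) ^ 3 * (supports F 3 (2 * r + 2)).card <
      p ^ ((r + 1) ^ 2) * ((n : ℝ) + 1) ^ 3) :
    (∃ (L : Type) (_ : Field L) (_ : Algebra K L), FiniteDimensional K L ∧
      (∃ a b : Fin (n + 1) → L, LinearIndependent L ![a, b] ∧ OnLine F a b) ∧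
      (points F L).Infinite) ∧
    ∀ σ : K →+* ℂ, ¬ Hyperbolic σ F := by
  obtain ⟨a, b, j, k, hjk, hl⟩ := line_of_density hr F d hF hd p hp h2 h3
  exact ⟨line_finite F ⟨d, hF⟩ a b j k hjk hl, fun σ => not_hyperbolic_of_line F a b j k hjk hl σ⟩

end Pool.Agent.Results.MP_f82ddf_nt.FewVariablePairs
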