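import Pool.Agent.W659.SA.Ext

/-!
# Rational points over all finite extensions on hyperbolic covers of subvarieties of `A × ℙⁿ`

`K` is a number field, `A = E_1 × … × E_r` a product of elliptic curves `y² = x³ + a_i x` or
`y² = x³ + b_i` with `a_i, b_i ∈ ℤ`, and `X` is the projective variety over `K` given by

  `G_1(P; x) = … = G_q(P; x) = 0, w_1² = F_1(P; x), …, w_m² = F_m(P; x)`, `P ∈ A`, `x ∈ ℙⁿ`,

where the `G_e` and `F_i` are polynomials with coefficients in `𝓞 K`, multihomogeneous in the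
coordinates of the plane cubics `E_i` and homogeneous in `x`, of even degrees in the case of the
`F_i`: a `(ℤ/2)^m`-cover of a closed subvariety of `A × ℙⁿ`, `n ≥ 1`.

Theorem: if `X_σ` is (Brody or Kobayashi) hyperbolic for one embedding `σ : K → ℂ`, then for every
finite extension `L` of `K` the number of the `x ∈ (𝓞 L)^(n+1)` with coordinates of size at most `H`
(with respect to an integral basis) over which `X` has an `L`-rational point is at most
`(2H+1)^((n+1)N) exp(- c log H / log log H)`, `N = [L : ℚ]`: all the `L`-rational points of `X` lie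
over a subset of density zero of `ℙⁿ(L)`.
-/

set_option autoImplicit false

namespace Pool.Agent.Results.MP_f82ddf_nt.HyperbolicCovers

open MvPolynomial NumberField Pool.Agent.W659.SA

theorem result (K : Type) [Field K] [NumberField K] (r n q m : ℕ) (hn : 1 ≤ n) (a b : Fin r → ℤ)
    (hab : ∀ i, a i * b i = 0 ∧ (a i ≠ 0 ∨ b i ≠ 0))
    (G : Fin q → Pol0 (𝓞 K) r (n + 1)) (d' : Fin q → Fin r → ℕ) (hG : ∀ e, MHomog (G e) (d' e))
    (k' : Fin q → ℕ) (_hGx : ∀ e, XHomog (G e) (k' e))
    (F : Fin m → Pol0 (𝓞 K) r (n + 1)) (d : Fin m → Fin r → ℕ) (hF : ∀ i, MHomog (F i) (d i))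
    (hd : ∀ i j, Even (d i j)) (k : Fin m → ℕ) (_hFx : ∀ i, XHomog (F i) (k i))
    (_hk : ∀ i, Even (k i)) (σ : K →+* ℂ) (hyp : BrodyHyperbolic σ a b G F)
    (L : Type) [Field L] [NumberField L] [Algebra K L] (N : ℕ)
    (ω : Module.Basis (Fin N) ℤ (𝓞 L)) :
    ∃ c : ℝ, 0 < c ∧ ∃ H₀ : ℕ, ∀ H : ℕ, H₀ ≤ H →
      (((FibL K ω a b G F H).ncard : ℕ) : ℝ) ≤
        (2 * (H : ℝ) + 1) ^ ((n + 1) * N) *
          Real.exp (-c * (Real.log H / Real.log (Real.log H))) :=
  dcExt K r n q m a b hab G d' hG F d hd hF σ (hyp_cond σ hn a b G F hyp) L N ω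

end Pool.Agent.Results.MP_f82ddf_nt.HyperbolicCovers
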