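import Pool.Agent.W600.Ell.Lang

/-!
# Lang's conjecture for multi-cyclic covers of complete intersections with `K ≤ 0`

`X` is the projective variety over the number field `K` in the weighted projective space
`P(1, …, 1, e 1, …, e r)` with the equations `G j (x) = 0` (of degree `d j`) and
`w i ^ m i = F i (x)` (of degree `m i * e i`): a multi-cyclic cover of a complete intersection, with
canonical class `O(∑ (m i - 1) e i + ∑ d j - n - 1)`. If this degree is at most `0` (and suitable
`m i` are even or divisible by `3` or `4` if it is `0`) then both sides of Lang's equivalence fail: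
some finite extension `L` of `K` has infinitely many `L`-rational points on `X`, and for every
embedding `σ` of `K` into the complex numbers there is a non-constant entire curve in `X_σ`.
-/

set_option autoImplicit false

namespace Pool.Agent.Results.MP_f82ddf_nt.MultiCyclicCovers

open MvPolynomial Pool.Agent.W600.Ell

theorem result {K : Type} [Field K] [NumberField K] {n r g : ℕ} {m e : Fin r → ℕ}
    (hm : ∀ i, 2 ≤ m i) (he : ∀ i, 0 < e i) {F : Fin r → MvPolynomial (Fin (n + 1)) K}
    (hF : ∀ i, (F i).IsHomogeneous (m i * e i)) {G : Fin g → MvPolynomial (Fin (n + 1)) K}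
    {d : Fin g → ℕ} (hG : ∀ i, (G i).IsHomogeneous (d i))
    (hK : ∑ i, (m i - 1) * e i + ∑ j, d j ≤ n + 1)
    (h0 : ∑ i, (m i - 1) * e i + ∑ j, d j = n + 1 →
      (∃ i, 3 ∣ m i ∨ 4 ∣ m i) ∨ 2 ≤ ∑ i with 2 ∣ m i, e i)
    (h0' : ∑ i, (m i - 1) * e i + ∑ j, d j = n → 0 < r)
    (hX : ∃ x : Fin (n + 1) → AlgebraicClosure K, x ≠ 0 ∧ (∀ i, aeval x (G i) = 0) ∧
      ∀ i, aeval x (F i) ≠ 0) (σ : K →+* ℂ) :
    ¬ HyperbolicAt m e F G σ ∧ ∃ (L : Type) (_ : Field L) (_ : Algebra K L),
      FiniteDimensional K L ∧ ¬ FinitelyManyPts m e F G L :=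
  lang hm he hF hG hK h0 h0' hX σ

end Pool.Agent.Results.MP_f82ddf_nt.MultiCyclicCovers
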