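import Mathlib
import Pool.Agent.W284.Lang.Proj

/-!
Lang's question for varieties with symmetries.

Let `X ⊂ P^n` be cut out over the number field `K` by forms `F i` of degrees `d i` (any number of
equations, any degrees; `X` may be singular, and may be of general type), and let `p` be a prime
number dividing none of the `d i`. If a finite `p`-subgroup `P` of `PGL(n + 1, Kbar)` preserves the
equations and is not cyclic, then `X` contains a line defined over a finite extension of `K`; so
`X(L)` is infinite for some finite `L / K` and no complex fibre `X_σ` is hyperbolic: both sides of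
Lang's equivalence fail. Equivalently, if `X_σ` is hyperbolic (or if `X(L)` is finite for all `L`),
then for every prime `p` prime to the degrees the `p`-subgroups of the symmetry group are cyclic.

For one equation `F` of degree `d` prime to `p` the hypothesis `hinv` says that `F ∘ g` is a
multiple of `F` for every linear map `g` that represents an element of `P` (every constant is a
`d`-th power in `Kbar`).
-/

set_option autoImplicit false

namespace Pool.Agent.Results.MP_f82ddf_nt.NoncyclicSymmetry

open MvPolynomial Pool.Agent.H159R3.Lang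

theorem result (K : Type) [Field K] [NumberField K] {ι : Type} (n : ℕ)
    (F : ι → MvPolynomial (Fin (n + 1)) K) (d : ι → ℕ) (hF : ∀ i, (F i).IsHomogeneous (d i))
    (p : ℕ) (hp : p.Prime) (hpd : ∀ i, ¬ p ∣ d i)
    (P : Subgroup (Matrix.ProjGenLinGroup (Fin (n + 1)) (AlgebraicClosure K)))
    (hfin : Finite P) (hP : IsPGroup p P) (hcyc : ¬ IsCyclic P)
    (hinv : ∀ g : GL (Fin (n + 1)) (AlgebraicClosure K), Matrix.ProjGenLinGroup.mk g ∈ P →
      ∃ c : AlgebraicClosure K, ∀ i x,
        aeval ((g : Matrix (Fin (n + 1)) (Fin (n + 1)) (AlgebraicClosure K)).mulVec x) (F i)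
          = c ^ d i * aeval x (F i)) :
    (∃ (L : Type) (_ : Field L) (_ : Algebra K L), FiniteDimensional K L ∧
      (∃ a b : Fin (n + 1) → L, LinearIndependent L ![a, b] ∧ OnLine F a b) ∧
      (points F L).Infinite) ∧
    ∀ σ : K →+* ℂ, ¬ Hyperbolic σ F := by
  have : Fact p.Prime := ⟨hp⟩
  obtain ⟨a, b, j, k, hjk, hl⟩ :=
    Pool.Agent.W284.Lang.line_of_proj F d hF hpd P hP hcyc hinv
  exact ⟨line_finite F ⟨d, hF⟩ a b j k hjk hl, fun σ => not_hyperbolic_of_line F a b j k hjk hl σ⟩

end Pool.Agent.Results.MP_f82ddf_nt.NoncyclicSymmetry
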